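import Pool.Agent.Lib.MP_021685_agTAL.TM
import Pool.Agent.Lib.MP_021685_agTT.FR
import Pool.Agent.Lib.MP_021685_agTT.VB

/-! Definitions used in the statement of `MP_021685_ag.AlmostAll`: Tate classes on the products `A ^ n × Z`. -/

set_option autoImplicit false

namespace TAL

open Polynomial Pool.Agent.Lib.MP_021685_agTT Pool.Agent.Lib.MP_17a322_nt.VA

/-- `V` (with the map `ι`) is the rational Tate module `V_l(A)` of the abelian variety `A` in projective space over the finite
field `K`, that is of the group of its points over the algebraic closure of `K`, and `F` is the Frobenius operator of `A` on it: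
it raises the coordinates of the points to the power `q`, the number of elements of `K`. -/
def IsFrobMod {K : Type} [Field K] [Fintype K] {N : ℕ} (A : AV K N) (l : ℕ) [Fact l.Prime] {V : Type} [AddCommGroup V]
    [Module ℚ_[l] V] (ι : (ℕ → A.Pts (AlgebraicClosure K)) → V) (F : V →ₗ[ℚ_[l]] V) : Prop :=
  IsTateMod l (A.Pts (AlgebraicClosure K)) V ι ∧
    ∀ x ∈ TateSeq l (A.Pts (AlgebraicClosure K)), F (ι x) = ι fun n => frob A (x n)

/-- The function `D` of two vectors of `V ^ n` is a *Tate class of degree two* on `A ^ n` over `K`, `V = V_l(A)`: an alternating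
bilinear form with `D (F v) (F w) = Q D v w` (by a theorem of Tate, which is not in Lean, a linear combination of the classes of
divisors). -/
def IsClassTwo {l : ℕ} [Fact l.Prime] (Q : ℕ) {V : Type} [AddCommGroup V] [Module ℚ_[l] V] (F : V →ₗ[ℚ_[l]] V) (n : ℕ)
    (D : (Fin n → V) → (Fin n → V) → ℚ_[l]) : Prop :=
  (∃ B : (Fin n → V) →ₗ[ℚ_[l]] (Fin n → V) →ₗ[ℚ_[l]] ℚ_[l], ∀ v w, B v w = D v w) ∧ (∀ v, D v v = 0) ∧
    ∀ v w, D (fun s => F (v s)) (fun s => F (w s)) = Q * D v w

/-- `e` is a non-degenerate Tate class of degree two on `A` itself, for instance the class of a polarization. -/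
def IsPolar {l : ℕ} [Fact l.Prime] (Q : ℕ) {V : Type} [AddCommGroup V] [Module ℚ_[l] V] (F : V →ₗ[ℚ_[l]] V)
    (e : V →ₗ[ℚ_[l]] V →ₗ[ℚ_[l]] ℚ_[l]) : Prop :=
  (∀ v, e v v = 0) ∧ (∀ v, (∀ w, e v w = 0) → v = 0) ∧ ∀ v w, e (F v) (F w) = Q * e v w

/-- **All Tate classes on the products `A ^ n × Z` are sums of products of classes of degree two on `A ^ n` with the property
`P n` and of Tate classes on `Z`**, if the Frobenius eigenvalues of `Z` have the property `S`.

`F` is the Frobenius on `V = V_l(A)`.  `W` is the `l`-adic homology `H_b(Z)`, the dual of `H^b(Z)`, of some degree `b`, and `G`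
the action of the Frobenius on it (for `b = 1` and an abelian variety `Z` it is the Frobenius on `V_l(Z)`); its characteristic
polynomial is the image of a polynomial `p` with integral coefficients (Deligne; the roots have absolute value `Q ^ (b / 2)`),
and all complex roots of `p` have the property `S`.  An element of `H^k(A ^ n) ⊗ H^b(Z) = Hom (W, Λ^k V_l(A ^ n)^*)` is an
alternating form `T` in `k` arguments from `V_l(A ^ n) = V ^ n` with values in the dual of `W`.  It is a Tate class over the
extension of degree `d` of `K` if `T (F ^ d v_1, .., F ^ d v_k) (G ^ d w) = Q ^ (d s) T (v_1, .., v_k) w`, where `k + b = 2 s`.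

* `k = 2 j`, `b = 2 i`: `T` is a sum of products of cup products of `j` forms `D` with the property `P n` (`cup`, the
  alternating sum over the permutations of the arguments; it is `2 ^ j` times the cup product) and of Tate classes `y` on `Z`
  over the same extension, `y (G ^ d w) = Q ^ (d i) y w`.
* `k = 2 j + 1`, `b = 2 i + 1`: `T = 0`.

By the Künneth formula all Tate classes on `A ^ n × Z` are sums of such `T`.  (The case `W = ℚ_l`, `G = 1`, `i = 0`: the Tate
classes on `A ^ n`.) -/
def AllTate {l : ℕ} [Fact l.Prime] (Q : ℕ) (S : ℂ → Prop) {V : Type} [AddCommGroup V] [Module ℚ_[l] V] (F : V →ₗ[ℚ_[l]] V)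
    (P : ∀ n : ℕ, ((Fin n → V) → (Fin n → V) → ℚ_[l]) → Prop) : Prop :=
  ∀ (W : Type) [AddCommGroup W] [Module ℚ_[l] W] [Module.Finite ℚ_[l] W] (G : W →ₗ[ℚ_[l]] W)
    (p : ℤ[X]), G.charpoly = p.map (Int.castRingHom ℚ_[l]) → (∀ z : ℂ, aeval z p = 0 → S z) →
    ∀ d n j i : ℕ, 0 < d →
      (∀ T : (Fin n → V) [⋀^Fin j ⊕ Fin j]→ₗ[ℚ_[l]] (W →ₗ[ℚ_[l]] ℚ_[l]),
        (∀ (v : Fin j ⊕ Fin j → Fin n → V) (w : W),
          T (fun a s => (F ^ d) (v a s)) ((G ^ d) w) = Q ^ (d * (j + i)) * T v w) →
        ∃ (r : ℕ) (D : Fin r → Fin j → (Fin n → V) → (Fin n → V) → ℚ_[l]) (y : Fin r → W →ₗ[ℚ_[l]] ℚ_[l]),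
          (∀ a b, P n (D a b)) ∧ (∀ a w, y a ((G ^ d) w) = Q ^ (d * i) * y a w) ∧
          ∀ v w, T v w = ∑ a, cup (D a) v * y a w) ∧
      ∀ T : (Fin n → V) [⋀^Fin (2 * j + 1)]→ₗ[ℚ_[l]] (W →ₗ[ℚ_[l]] ℚ_[l]),
        (∀ (v : Fin (2 * j + 1) → Fin n → V) (w : W),
          T (fun a s => (F ^ d) (v a s)) ((G ^ d) w) = Q ^ (d * (j + i + 1)) * T v w) → T = 0

/-- **All the Tate classes on the varieties `A ^ n × Z`**, for all abelian varieties `A` in projective space with the Frobenius
polynomial `R` over the fields with `Q` elements (`F` is the Frobenius on the Tate module `V_l(A)`, `l` prime to `Q`; such `A`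
exist by Honda and Tate, if `R` is a product of the Frobenius polynomials of simple abelian varieties: this is not in Lean) and
all varieties `Z` whose Frobenius eigenvalues have the property `S`:

* if `F` is semisimple (this is always true, by Weil), or if the roots of `R` are simple, they are sums of products of Tate
  classes of degree two on `A ^ n` over `K` itself and of Tate classes on `Z`; by Tate's theorem (not in Lean) the Tate classes
  of degree two are linear combinations of classes of divisors;
* if the roots of `R` are simple, there is a non-degenerate Tate class `e` of degree two on `A`, and for every such `e`, for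
  instance the class of a polarization `D` of `A`, the classes of the divisors `f^* D` are enough, for the homomorphisms
  `f x = m_1(F) x_1 + .. + m_n(F) x_n` from `A ^ n` to `A`, `m_1, .., m_n` in `ℤ[X]` (`pull e F m` is `(x, y) ↦ e (f x) (f y)`):
  here Tate's theorem is not needed. -/
def TateLit (Q : ℕ) (R : ℤ[X]) (S : ℂ → Prop) : Prop :=
  ∀ (K : Type) [Field K] [Fintype K] (N : ℕ) (A : AV K N) (l : ℕ) [Fact l.Prime] (V : Type) [AddCommGroup V]
    [Module ℚ_[l] V] [Module.Finite ℚ_[l] V] (ι : (ℕ → A.Pts (AlgebraicClosure K)) → V) (F : V →ₗ[ℚ_[l]] V),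
    Fintype.card K = Q → (l : K) ≠ 0 → IsFrobMod A l ι F → F.charpoly = R.map (Int.castRingHom ℚ_[l]) →
      (Module.End.IsSemisimple F ∨ (R.map (Int.castRingHom ℚ)).Separable → AllTate Q S F (IsClassTwo Q F)) ∧
      ((R.map (Int.castRingHom ℚ)).Separable → (∃ e, IsPolar Q F e) ∧
        ∀ e, IsPolar Q F e → AllTate Q S F fun n D => ∃ m : Fin n → ℤ[X], D = pull e F m)

end TAL
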