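import Pool.Agent.Lib.MP_021685_agTAF.FD
import Pool.Agent.Lib.MP_021685_agTAL.AT

/-! Definitions used in the statement of `MP_021685_ag.AlmostAll`: the generic CM fields, and the Tate classes on abelian
varieties over finite fields whose Frobenius eigenvalues are in such fields. -/

set_option autoImplicit false

namespace TAL

open Polynomial

/-- **All the sign changes**: for every embedding `φ` of the number field `F` in `ℂ` there is an automorphism of `ℂ` which
changes `φ` to its complex conjugate and fixes all the other embeddings (the Galois group of the Galois closure of a CM field
`F` of degree `2 g` contains the group `(ℤ / 2) ^ g` of all the sign changes). -/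
def AllSigns (F : Type) [Field F] : Prop :=
  ∀ φ : F →+* ℂ, ∃ τ : ℂ ≃+* ℂ, (τ : ℂ →+* ℂ).comp φ = (starRingEnd ℂ).comp φ ∧
    ∀ ψ : F →+* ℂ, ψ ≠ φ → ψ ≠ (starRingEnd ℂ).comp φ → (τ : ℂ →+* ℂ).comp ψ = ψ

/-- **The generic CM fields**: the CM fields with all the sign changes (`AllSigns`) whose maximal real subfield has no
automorphism but the identity.  (All imaginary quadratic fields are generic.) -/
def IsGeneric (F : Type) [Field F] [NumberField F] : Prop :=
  NumberField.IsCMField F ∧ AllSigns F ∧
    ∀ σ : NumberField.maximalRealSubfield F ≃+* NumberField.maximalRealSubfield F, σ = RingEquiv.refl _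

/-- The Galois closure of the number field `F` in `ℂ`. -/
noncomputable def galClosure (F : Type) [Field F] : IntermediateField ℚ ℂ :=
  IntermediateField.adjoin ℚ {z : ℂ | ∃ (φ : F →+* ℂ) (a : F), φ a = z}

/-- The maximal real subfield of `F` has no automorphism of order two (for instance, if its degree is odd). -/
def NoInvolution (F : Type) [Field F] [NumberField F] : Prop :=
  ∀ σ : NumberField.maximalRealSubfield F ≃+* NumberField.maximalRealSubfield F, (∀ x, σ (σ x) = x) → σ = RingEquiv.refl _

/-- No two of the fields `E i` are isomorphic, and any two of them have different Galois closures, or the maximal real subfield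
of one of them has no automorphism of order two.  (This holds for one field, and for any generic fields no two of which are
isomorphic.) -/
def Apart {r : ℕ} (E : Fin r → Type) [∀ i, Field (E i)] [∀ i, NumberField (E i)] : Prop :=
  ∀ i j, i ≠ j → IsEmpty (E i ≃+* E j) ∧ (galClosure (E i) ≠ galClosure (E j) ∨ NoInvolution (E i) ∨ NoInvolution (E j))

/-- The complex numbers which generate a field isomorphic to `F`: the images of the generators of `F` under the embeddings
of `F` in `ℂ`.  (A subfield of `ℂ` contains such a number if and only if it contains a field isomorphic to `F`.) -/
def Gens (F : Type) [Field F] [NumberField F] : Set ℂ :=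
  {z | ∃ (φ : F →+* ℂ) (a : F), φ a = z ∧ (IntermediateField.adjoin ℚ {a} : IntermediateField ℚ F) = ⊤}

/-- The property of the polynomials `t i`: all the number fields `E i` generated by roots of the `frobPoly q (t i)` are
generic CM fields of degree `2 g`, and no two of the `E i` are isomorphic. -/
def GenericFields (q g : ℕ) {r : ℕ} (t : Fin r → ℤ[X]) : Prop :=
  ∀ (E : Fin r → Type) [∀ i, Field (E i)] [∀ i, NumberField (E i)], (∀ i, HIA.IsFrobField q (t i) (E i)) →
    (∀ i, IsGeneric (E i) ∧ Module.finrank ℚ (E i) = 2 * g) ∧ ∀ i j, Nonempty (E i ≃+* E j) → i = j

/-- **All the Tate classes on the varieties `A ^ n × Z`**, for the abelian varieties `A` with the Frobenius polynomial `R` over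
the fields with `Q` elements and the varieties `Z` whose Frobenius eigenvalues have the property `S`, are sums of products of
Tate classes of degree two on `A ^ n` and of Tate classes on `Z`: `TateLit` (for abelian varieties in projective space and
their Tate modules), and `FullFor` (the same for all multilinear Tate forms, in terms of semisimple complex operators). -/
def TateOver (Q : ℕ) (R : ℤ[X]) (S : ℂ → Prop) : Prop := TateLit Q R S ∧ TAF.FullFor Q R S

/-- **The Tate classes for Weil numbers in the number fields `E i`**, of degree `2 g i`.  For all positive integers `Q`, all
finite families of Weil numbers `a i k` in the `E i` for `Q` (`k` in a finite set `J i`), and all monic integral polynomials `R`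
whose complex roots are the conjugates of the `a i k` (the characteristic polynomials of the Frobenius of the products of powers
of abelian varieties `A i k` with Frobenius `a i k` over a field with `Q` elements, and of all abelian varieties isogenous to
such a product):

* if for every `i` the `a i k` are multiplicatively independent modulo `Q`, all Tate classes on the products of `A ^ n` and of
  varieties `Z`, for `A` with Frobenius polynomial `R`, are sums of products of classes of divisors on `A ^ n` and of Tate
  classes on `Z` (`TateOver`), if all Frobenius eigenvalues of `Z` are, for every `i` with non-empty `J i`, roots of products of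
  algebraic numbers of degree less than `2 g i`, or of angle rank less than `g i`, or with a splitting field which contains no
  field isomorphic to `E i`;
* conversely, if the `A i k` are not supersingular and not isogenous to each other over any extension, and if the Tate classes
  on the powers of `A` come from those of degree two (`TI.Full`), then for every `i` the `a i k` are multiplicatively independent
  modulo `Q`. -/
def TateFields {r : ℕ} (g : Fin r → ℕ) (E : Fin r → Type) [∀ i, Field (E i)] [∀ i, NumberField (E i)] : Prop :=
  ∀ (Q : ℕ) (J : Fin r → Type) [∀ i, Fintype (J i)] (a : ∀ i, J i → E i) (R : ℤ[X]), 0 < Q → R.Monic →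
    (∀ (i : Fin r) (k : J i) (φ : E i →+* ℂ), φ (a i k) * starRingEnd ℂ (φ (a i k)) = (Q : ℂ)) →
    (∀ z : ℂ, aeval z R = 0 ↔ ∃ (i : Fin r) (k : J i) (φ : E i →+* ℂ), φ (a i k) = z) →
      ((∀ i, TWF.IsIndep Q (a i)) → TateOver Q R fun y => ∀ i, Nonempty (J i) → TAF.Small Q (Gens (E i)) (g i) y) ∧
      ((∀ i, TWF.IsDistinct Q (a i)) → TI.Full Q R → ∀ i, TWF.IsIndep Q (a i))

/-- The case of one Weil number in every field, the Frobenius itself: for the product `P` of the `frobPoly q (t i)`, which has no
multiple roots (the characteristic polynomial of the Frobenius of the product of abelian varieties `A i` over the field with `q`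
elements with real Weil polynomial `t i`), all Tate classes on the products of powers of such abelian varieties and of varieties
`Z` are sums of products of classes of divisors and of Tate classes on `Z` (`TateOver`), if all Frobenius eigenvalues of `Z` are,
for every `i`, roots of products of algebraic numbers of degree less than `2 g`, or of angle rank less than `g`, or with a
splitting field which contains no root of `frobPoly q (t i)`. -/
def TateFrob (q g : ℕ) {r : ℕ} (t : Fin r → ℤ[X]) : Prop :=
  ((∏ i, TI.frobPoly q (t i)).map (Int.castRingHom ℚ)).Separable ∧
    TateOver q (∏ i, TI.frobPoly q (t i)) fun y => ∀ i, TAF.Small q (TAF.Roots q (t i)) g y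

end TAL
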