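import Pool.Agent.Lib.MP_021685_agTAL.AT
import Pool.Agent.Lib.MP_021685_agTAF.FD
import Pool.Agent.Lib.MP_021685_agTT.WF
import Pool.Agent.Lib.MP_021685_agTT.LS

/-! Tate classes on the products `A ^ n × Z`: proofs. -/

set_option autoImplicit false

namespace TAL

open Polynomial Module Pool.Agent.Lib.MP_021685_agTT Pool.Agent.Lib.MP_17a322_nt.VA

section

variable {l : ℕ} [Fact l.Prime] {Q : ℕ} {V : Type} [AddCommGroup V] [Module ℚ_[l] V]

theorem allTate_mono {S S' : ℂ → Prop} (h : ∀ y, S' y → S y) {F : V →ₗ[ℚ_[l]] V}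
    {P P' : ∀ n : ℕ, ((Fin n → V) → (Fin n → V) → ℚ_[l]) → Prop} (hP : ∀ n D, P n D → P' n D) (hT : AllTate Q S F P) :
    AllTate Q S' F P' := by
  intro W _ _ _ G p hp hz d n j i hd
  obtain ⟨h1, h2⟩ := hT W G p hp (fun z hz' => h _ (hz z hz')) d n j i hd
  refine ⟨fun T hT => ?_, h2⟩
  obtain ⟨r, D, y, hD, hy, hTs⟩ := h1 T hT
  exact ⟨r, D, y, fun a b => hP _ _ (hD a b), hy, hTs⟩

theorem allTate_semi [Module.Finite ℚ_[l] V] {R : ℤ[X]} {S : ℂ → Prop} (hroot : ∀ z : ℂ, aeval z R = 0 → z ^ 2 ≠ Q)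
    (hS1 : S 1) (hSp : ∀ (z : ℂ) (d : ℕ), 0 < d → S z → S (z ^ d)) (h : FullS Q R S) (F : V →ₗ[ℚ_[l]] V)
    (hchar : F.charpoly = R.map (Int.castRingHom ℚ_[l])) (hss : Module.End.IsSemisimple F) :
    AllTate Q S F (IsClassTwo Q F) := by
  intro W _ _ _ G p hp hz d n j i hd
  obtain ⟨σ⟩ := exists_embedding l
  let _ : Algebra ℚ_[l] ℂ := σ.toAlgebra
  have hG := eig_pow hp hz hd (S := S) fun z => hSp z d hd
  refine ⟨fun T hT => ?_, fun T hT => ?_⟩
  · let e0 : Fin j ⊕ Fin j ≃ Fin (2 * j) := finSumFinEquiv.trans (finCongr (two_mul j).symm)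
    have hspan := semi_power hroot hS1 h F hchar hss (G ^ d) hG hd (n := n) (r := 2 * j) (b := 2 * i)
      (s := j + i) (by ring) (T.toMultilinearMap.domDomCongr e0) fun v w => hT (fun a => v (e0 a)) w
    obtain ⟨r, D, y, hD, hy, hTs⟩ := isSum_of_span _
      (fun m => {(G ^ d, (Q : ℚ_[l]) ^ (d * (j + i - m)))}) T e0 hspan
    refine ⟨r, fun a b x z => D a b x z, y, fun a b => ⟨⟨D a b, fun _ _ => rfl⟩, (hD a b).1, fun v w => (hD a b).2 _ rfl v w⟩,
      fun a w => ?_, hTs⟩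
    have h1 := hy a _ rfl w
    rwa [show j + i - j = i by omega] at h1
  · have hspan := semi_power hroot hS1 h F hchar hss (G ^ d) hG hd (n := n) (r := 2 * j + 1)
      (b := 2 * i + 1) (s := j + i + 1) (by ring) T.toMultilinearMap hT
    have h1 := eq_zero_of_span _ (fun m => {(G ^ d, (Q : ℚ_[l]) ^ (d * (j + i + 1 - m)))}) (by omega) _ hspan
    exact AlternatingMap.coe_multilinearMap_injective h1

theorem allTate_over [Module.Finite ℚ_[l] V] (hQ : 0 < Q) {R : ℤ[X]} {S : ℂ → Prop}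
    (hR : (R.map (Int.castRingHom ℚ)).Separable) (hS1 : S 1) (hSp : ∀ (z : ℂ) (d : ℕ), 0 < d → S z → S (z ^ d))
    (h : FullS Q R S) (F : V →ₗ[ℚ_[l]] V) (hchar : F.charpoly = R.map (Int.castRingHom ℚ_[l]))
    {e : V →ₗ[ℚ_[l]] V →ₗ[ℚ_[l]] ℚ_[l]} (he : IsPolar Q F e) :
    AllTate Q S F fun n D => ∃ m : Fin n → ℤ[X], D = pull e F m := by
  obtain ⟨halt, hnd, he⟩ := he
  intro W _ _ _ G p hp hz d n j i hd
  obtain ⟨σ⟩ := exists_embedding l
  let _ : Algebra ℚ_[l] ℂ := σ.toAlgebra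
  have hG := eig_pow hp hz hd (S := S) fun z => hSp z d hd
  refine ⟨fun T hT => ?_, fun T hT => ?_⟩
  · let e0 : Fin j ⊕ Fin j ≃ Fin (2 * j) := finSumFinEquiv.trans (finCongr (two_mul j).symm)
    have h1 := tate_power_over hQ hR hS1 h F hchar e halt hnd he (G ^ d) hG hd
      (T.toMultilinearMap.domDomCongr e0) fun v w => hT (fun a => v (e0 a)) w
    obtain ⟨c, hc, hsum⟩ := Rg_exists (alt_over e halt F _ T e0 h1)
    let ε := c.support.equivFin
    refine ⟨c.support.card, fun a b => pull e F ((ε.symm a : Fin j → Fin n → ℤ[X]) b), fun a => c (ε.symm a),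
      fun a b => ⟨_, rfl⟩, fun a w => hc _ w, fun v w => ?_⟩
    rw [hsum, Finsupp.sum, ← Finset.sum_coe_sort c.support, ← Equiv.sum_comp ε.symm]
  · have h1 := tate_power_odd hR h F hchar (G ^ d) hG hd T.toMultilinearMap hT
    exact AlternatingMap.coe_multilinearMap_injective h1

theorem pull_class [Module.Finite ℚ_[l] V] {F : V →ₗ[ℚ_[l]] V} {e : V →ₗ[ℚ_[l]] V →ₗ[ℚ_[l]] ℚ_[l]} (he : IsPolar Q F e)
    {n : ℕ} (m : Fin n → ℤ[X]) : IsClassTwo Q F n (pull e F m) := by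
  refine ⟨⟨e.compl₁₂ (homVL F m) (homVL F m), fun v w => ?_⟩, fun v => he.1 _, fun v w => ?_⟩
  · rw [LinearMap.compl₁₂_apply, homVL_apply, homVL_apply]
    rfl
  · show e (homV F m fun s => F (v s)) (homV F m fun s => F (w s)) = Q * e (homV F m v) (homV F m w)
    rw [← homVL_apply, ← homVL_apply, homVL_comm, homVL_comm, he.2.2, homVL_apply, homVL_apply]

end

theorem tateLit_of_full {Q : ℕ} {R : ℤ[X]} {S : ℂ → Prop} (hQ : 0 < Q)
    (hroot : ∀ z : ℂ, aeval z R = 0 → z * starRingEnd ℂ z = Q ∧ z ^ 2 ≠ Q) (hS1 : S 1)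
    (hSp : ∀ (z : ℂ) (d : ℕ), 0 < d → S z → S (z ^ d)) (h : TAF.FullFor Q R S) : TateLit Q R S := by
  intro K _ _ N A l _ V _ _ _ ι F hK hl hF hchar
  have hover : (R.map (Int.castRingHom ℚ)).Separable → ∀ e, IsPolar Q F e →
      AllTate Q S F fun n D => ∃ m : Fin n → ℤ[X], D = pull e F m := fun hR e he =>
    allTate_over hQ hR hS1 hSp h F hchar he
  have hex : (R.map (Int.castRingHom ℚ)).Separable → ∃ e, IsPolar Q F e := by
    intro hR
    obtain ⟨σ⟩ := exists_embedding l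
    let _ : Algebra ℚ_[l] ℂ := σ.toAlgebra
    exact exists_form hR hroot F hchar
  refine ⟨?_, fun hR => ⟨hex hR, hover hR⟩⟩
  rintro (hss | hR)
  · exact allTate_semi (fun z hz => (hroot z hz).2) hS1 hSp h F hchar hss
  · obtain ⟨e, he⟩ := hex hR
    refine allTate_mono (fun _ h => h) (fun n D hD => ?_) (hover hR e he)
    obtain ⟨m, rfl⟩ := hD
    exact pull_class he m

theorem tateLit_mono {Q : ℕ} {R : ℤ[X]} {S S' : ℂ → Prop} (h : ∀ y, S' y → S y) (hT : TateLit Q R S) : TateLit Q R S' := by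
  intro K _ _ N A l _ V _ _ _ ι F hK hl hF hchar
  obtain ⟨h1, h2⟩ := hT K N A l V ι F hK hl hF hchar
  exact ⟨fun h3 => allTate_mono h (fun _ _ h => h) (h1 h3), fun hR => ⟨(h2 hR).1, fun e he =>
    allTate_mono h (fun _ _ h => h) ((h2 hR).2 e he)⟩⟩

end TAL
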