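import Pool.Agent.Lib.MP_021685_agTAL.AL1
import Pool.Agent.Lib.MP_021685_agTAL.AL3
import Pool.Agent.Lib.MP_021685_agTAL.AP
import Pool.Agent.Lib.MP_021685_agTAF.F3
import Pool.Agent.Lib.MP_021685_agTAL.AL8
import Pool.Agent.Lib.MP_021685_agTAW.W7
import Pool.Agent.Lib.MP_802513_agHU.N2
import Pool.Agent.Lib.MP_021685_agTWF.W8

/-! Families of CM fields with all the sign changes. -/

set_option autoImplicit false

attribute [-instance] Pool.Agent.Lib.MP_802513_ag.W.fintypeEmb

namespace TAL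

open Polynomial TAF

/-- The Tate classes for Weil numbers in CM fields with all the sign changes. -/
theorem tateFields {r : ℕ} {g : Fin r → ℕ} {E : Fin r → Type} [∀ i, Field (E i)] [∀ i, NumberField (E i)]
    (hE : ∀ i, NumberField.IsCMField (E i) ∧ AllSigns (E i) ∧ Module.finrank ℚ (E i) = 2 * g i) (hA : Apart E) :
    TateFields g E := by
  intro Q J _ a R hQ hm hW hR
  refine ⟨fun hI => ?_, fun hD hF i => TWF.indep_of_full hQ (hW i) (hD i) hm (fun k φ => (hR _).2 ⟨i, k, φ, rfl⟩) hF⟩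
  have hcm : ∀ i, NumberField.IsCMField (E i) := fun i => (hE i).1
  have hF : HU.Fl E := fl_of_signs fun i => (hE i).2.1
  have hg : ∀ i, 0 < g i := fun i => by
    have h1 : 0 < Module.finrank ℚ (E i) := Module.finrank_pos
    have h2 := (hE i).2.2
    omega
  have hfull : FullFor Q R fun y => ∀ i, Nonempty (J i) → Small Q (Gens (E i)) (g i) y :=
    TAW.glue_fields hF (HU.ni_of hF fun i j hij => (hA i j hij).1)
      (fun x b b' => noRefl_fam (D := HU.sg hF) (fun _ => rfl) (fun _ => rfl) (fun i j hij => (hA i j hij).2) x b b')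
      hg hQ a hm hW hR (fun i => Gens (E i)) fun i P' _ hm' hP' =>
        single (hE i).2.1 hQ (hE i).2.2 (hW i) (hI i) hm' hP'
  have hroot : ∀ z : ℂ, aeval z R = 0 → z * starRingEnd ℂ z = Q ∧ z ^ 2 ≠ Q := by
    intro z hz
    obtain ⟨i, k, φ, rfl⟩ := (hR z).1 hz
    refine ⟨hW i k φ, fun h => ?_⟩
    have hQ0 : (Q : E i) ≠ 0 := Nat.cast_ne_zero.2 hQ.ne'
    have h2 : a i k ^ 2 = (Q : E i) := by
      apply φ.injective
      rw [map_pow, map_natCast]
      exact h
    classical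
    have h3 := hI i (Pi.single k 1) (by
      rw [Finset.prod_eq_single k]
      · rw [Pi.single_eq_same, zpow_one, h2, div_self hQ0]
      · intro l _ hl
        rw [Pi.single_eq_of_ne hl, zpow_zero]
      · intro h
        exact absurd (Finset.mem_univ _) h) k
    rw [Pi.single_eq_same] at h3
    exact one_ne_zero h3
  have hS1 : ∀ i, Nonempty (J i) → Small Q (Gens (E i)) (g i) 1 := fun i _ => small_one _ _ _
  have hSp : ∀ (z : ℂ) (d : ℕ), 0 < d → (∀ i, Nonempty (J i) → Small Q (Gens (E i)) (g i) z) →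
      ∀ i, Nonempty (J i) → Small Q (Gens (E i)) (g i) (z ^ d) :=
    fun z d hd hz i hi => (closed_small _ _ _).pow (hz i hi) d
  exact ⟨tateLit_of_full hQ hroot hS1 hSp hfull, hfull⟩

theorem weil_abs {q g : ℕ} (hq : 0 < q) {h : ℤ[X]} (hh : h ∈ TI.Weil q g) {z : ℂ} (hz : z ∈ Roots q h) :
    z * starRingEnd ℂ z = (q : ℂ) := by
  obtain ⟨x, hx, hx2⟩ := TI.frob_root q hq h hh.1 z hz
  obtain ⟨s, rfl, hs⟩ := hh.2.2 x hx
  have hre := congrArg Complex.re hx2
  have him := congrArg Complex.im hx2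
  simp only [Complex.add_re, Complex.sub_re, Complex.mul_re, Complex.ofReal_re, Complex.ofReal_im, Complex.natCast_re,
    Complex.zero_re, Complex.add_im, Complex.sub_im, Complex.mul_im, Complex.natCast_im, Complex.zero_im, sq] at hre him
  rw [Complex.mul_conj]
  have key : Complex.normSq z = (q : ℝ) := by
    rw [Complex.normSq_apply]
    rcases eq_or_ne z.im 0 with h0 | h0
    · rw [h0] at hre ⊢
      have h1 : (z.re - s / 2) ^ 2 ≤ 0 := by nlinarith
      have h2 : z.re - s / 2 = 0 := by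
        have h3 := le_antisymm h1 (sq_nonneg _)
        exact pow_eq_zero_iff two_ne_zero |>.1 h3
      have h3 : z.re = s / 2 := by linarith
      rw [h3] at hre ⊢
      nlinarith
    · have h1 : 2 * z.re = s := by
        have h2 : z.im * (2 * z.re - s) = 0 := by linarith
        have h3 := (mul_eq_zero.1 h2).resolve_left h0
        linarith
      rw [← h1] at hre
      nlinarith
  rw [key]
  norm_num

/-- One Weil number which generates a CM field of degree at least `4` with all the sign changes. -/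
theorem indep_single {E : Type} [Field E] [NumberField E] (hE : AllSigns E) {g Q : ℕ} (hQ : 0 < Q) (hg : 2 ≤ g)
    (hd : Module.finrank ℚ E = 2 * g) {a : E} (htop : IntermediateField.adjoin ℚ {a} = ⊤)
    (hW : ∀ φ : E →+* ℂ, φ a * starRingEnd ℂ (φ a) = (Q : ℂ)) : TWF.IsIndep Q (fun _ : Unit => a) := by
  classical
  have hQE : (Q : E) ≠ 0 := Nat.cast_ne_zero.2 hQ.ne'
  have hQC : (Q : ℂ) ≠ 0 := Nat.cast_ne_zero.2 hQ.ne'
  intro m hrel k
  by_contra hk
  have hmk : m () ≠ 0 := hk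
  rw [Fintype.prod_unique] at hrel
  have hrel' : (a ^ 2 / (Q : E)) ^ m () = 1 := hrel
  have hζ : (a ^ 2 / (Q : E)) ^ (m ()).natAbs = 1 := by
    rcases Int.natAbs_eq (m ()) with h1 | h1
    · rw [h1, zpow_natCast] at hrel'
      exact hrel'
    · rw [h1, zpow_neg, zpow_natCast, inv_eq_one] at hrel'
      exact hrel'
  have hN : 0 < (m ()).natAbs := Int.natAbs_pos.2 hmk
  set ζ : E := a ^ 2 / (Q : E) with hζdef
  have hfin : IsOfFinOrder ζ := isOfFinOrder_iff_pow_eq_one.2 ⟨_, hN, hζ⟩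
  have hprim : IsPrimitiveRoot ζ (orderOf ζ) := IsPrimitiveRoot.orderOf ζ
  have hne : NeZero (orderOf ζ) := ⟨(hfin.orderOf_pos).ne'⟩
  obtain ⟨φ⟩ : Nonempty (E →+* ℂ) := inferInstance
  -- another embedding
  have hcard : 4 ≤ Fintype.card (E →+* ℂ) := by
    rw [NumberField.Embeddings.card E ℂ, hd]
    omega
  obtain ⟨ψ, hψ⟩ : ∃ ψ : E →+* ℂ, ψ ∉ ({φ, (starRingEnd ℂ).comp φ} : Finset (E →+* ℂ)) := by
    by_contra hcon
    push Not at hcon
    have h1 : Fintype.card (E →+* ℂ) ≤ ({φ, (starRingEnd ℂ).comp φ} : Finset (E →+* ℂ)).card := by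
      rw [← Finset.card_univ]
      exact Finset.card_le_card fun x _ => hcon x
    have h2 : ({φ, (starRingEnd ℂ).comp φ} : Finset (E →+* ℂ)).card ≤ 2 := Finset.card_le_two
    omega
  rw [Finset.mem_insert, Finset.mem_singleton, not_or] at hψ
  obtain ⟨τ, h1, h2⟩ := hE φ
  have h3 := h2 ψ hψ.1 hψ.2
  obtain ⟨n, -, hn⟩ := (hprim.map_of_injective ψ.injective).eq_pow_of_pow_eq_one (ξ := φ ζ) (by
    rw [← map_pow, hprim.pow_eq_one, map_one])
  have h4 : starRingEnd ℂ (φ ζ) = φ ζ := by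
    have h5 : τ (φ ζ) = starRingEnd ℂ (φ ζ) := RingHom.congr_fun h1 ζ
    have h6 : τ (ψ ζ) = ψ ζ := RingHom.congr_fun h3 ζ
    rw [← h5, ← hn, map_pow, h6]
  have h5 : φ ζ * starRingEnd ℂ (φ ζ) = 1 := by
    have h6 : φ ζ = φ a ^ 2 / (Q : ℂ) := by rw [hζdef, map_div₀, map_pow, map_natCast]
    rw [h6, map_div₀, map_pow, map_natCast, div_mul_div_comm, ← mul_pow, hW φ, pow_two, div_self (mul_ne_zero hQC hQC)]
  have h6 : ζ ^ 2 = 1 := by
    apply φ.injective
    rw [map_pow, map_one, pow_two]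
    nth_rewrite 2 [← h4]
    exact h5
  have h7 : ∃ c : ℚ, a ^ 2 = algebraMap ℚ E c := by
    have h8 : a ^ 2 = ζ * (Q : E) := by rw [hζdef, div_mul_cancel₀ _ hQE]
    rcases eq_or_eq_neg_of_sq_eq_sq ζ 1 (by rw [h6, one_pow]) with h | h
    · exact ⟨Q, by rw [h8, h, one_mul, map_natCast]⟩
    · exact ⟨-Q, by rw [h8, h, neg_one_mul, map_neg, map_natCast]⟩
  obtain ⟨c, hc⟩ := h7
  have h8 : (minpoly ℚ a).natDegree = Module.finrank ℚ E := by
    have h9 := IntermediateField.adjoin.finrank (Algebra.IsIntegral.isIntegral (R := ℚ) a)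
    rw [htop, IntermediateField.finrank_top'] at h9
    exact h9.symm
  have h9 : (minpoly ℚ a).natDegree ≤ 2 := by
    have h10 : (X ^ 2 - C c : ℚ[X]).natDegree = 2 := natDegree_X_pow_sub_C
    have h11 : (X ^ 2 - C c : ℚ[X]) ≠ 0 := by
      intro h0
      rw [h0, natDegree_zero] at h10
      omega
    rw [← h10]
    refine natDegree_le_of_dvd (minpoly.dvd ℚ a ?_) h11
    rw [map_sub, map_pow, aeval_X, aeval_C, hc, sub_self]
  omega

end TAL
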