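import Pool.Agent.Lib.MP_021685_agTAL.AD
import Pool.Agent.Lib.MP_802513_agHT.D0

/-! Definition used in the statement of `MP_021685_ag.AlmostAll`: the CM fields `ℚ (√x)` (`HT.Tot` and `HT.IsRootField` are in
the file `MP_802513_agHT/D0.lean`). -/

set_option autoImplicit false

namespace TAL

open Polynomial

/-- The property of the polynomials `t i`: all the number fields `E i` generated by roots of the `t i (X ^ 2)` are generic CM
fields of degree `2 g`, and no two of the `E i` are isomorphic. -/
def RootFields (g : ℕ) {r : ℕ} (t : Fin r → ℤ[X]) : Prop :=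
  ∀ (E : Fin r → Type) [∀ i, Field (E i)] [∀ i, NumberField (E i)], (∀ i, HT.IsRootField (t i) (E i)) →
    (∀ i, IsGeneric (E i) ∧ Module.finrank ℚ (E i) = 2 * g) ∧ ∀ i j, Nonempty (E i ≃+* E j) → i = j

end TAL
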