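import Pool.Agent.Lib.MP_021685_agTAL.AD
import Pool.Agent.Lib.MP_021685_agSP.D0
import Pool.Agent.Lib.MP_021685_agSP.SPCD
import Pool.Agent.Lib.MP_802513_agHT.D0

/-! Definitions used in the statement of `MP_021685_ag.AlmostAll`: the separated families of CM fields (`TSP.Sep` is in the file
`MP_021685_agSP/D0.lean`, `HT.Tot` and `HT.IsRootField` in `MP_802513_agHT/D0.lean`). -/

set_option autoImplicit false

namespace TAL

open Polynomial

/-- **There are no exotic Tate classes on the powers of the abelian varieties with Weil numbers in the fields `E i`**: for all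
prime powers `Q`, and all finite families of Weil numbers `a i k` in the `E i` for `Q` (algebraic integers all of whose absolute
values are `√Q`) which are multiplicatively independent modulo `Q` for every `i`, there is a monic integral polynomial `R` whose
complex roots are the conjugates of the `a i k`, with any multiplicities (for instance the Frobenius polynomial of an abelian
variety over the field with `Q` elements whose simple factors have the Frobenius `a i k`: it exists by Honda and Tate), such that
all Tate forms in an even number `2 n` of arguments (the Tate classes of degree `2 n` on the powers of the abelian variety, over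
any finite extension) are sums of products of Tate forms in two arguments. -/
def TatePowers {r : ℕ} (E : Fin r → Type) [∀ i, Field (E i)] [∀ i, NumberField (E i)] : Prop :=
  ∀ (Q : ℕ) (J : Fin r → Type) [∀ i, Fintype (J i)] (a : ∀ i, J i → E i), IsPrimePow Q → (∀ i k, IsIntegral ℤ (a i k)) →
    (∀ (i : Fin r) (k : J i) (φ : E i →+* ℂ), φ (a i k) * starRingEnd ℂ (φ (a i k)) = (Q : ℂ)) → (∀ i, TWF.IsIndep Q (a i)) →
      ∃ R : ℤ[X], R.Monic ∧ (∀ z : ℂ, aeval z R = 0 ↔ ∃ (i : Fin r) (k : J i) (φ : E i →+* ℂ), φ (a i k) = z) ∧
        TSP.EvenFull Q R

/-- The property of the polynomials `t i`: all the number fields `E i` generated by roots of the `frobPoly q (t i)` are CM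
fields of degree `2 g`, and they are separated. -/
def SepWeil (q g : ℕ) {r : ℕ} (t : Fin r → ℤ[X]) : Prop :=
  ∀ (E : Fin r → Type) [∀ i, Field (E i)] [∀ i, NumberField (E i)], (∀ i, HIA.IsFrobField q (t i) (E i)) →
    (∀ i, NumberField.IsCMField (E i) ∧ Module.finrank ℚ (E i) = 2 * g) ∧ TSP.Sep E

/-- The property of the polynomials `t i`: all the number fields `E i` generated by roots of the `t i (X ^ 2)` are CM fields of
degree `2 g`, and they are separated. -/
def SepRoot (g : ℕ) {r : ℕ} (t : Fin r → ℤ[X]) : Prop :=
  ∀ (E : Fin r → Type) [∀ i, Field (E i)] [∀ i, NumberField (E i)], (∀ i, HT.IsRootField (t i) (E i)) →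
    (∀ i, NumberField.IsCMField (E i) ∧ Module.finrank ℚ (E i) = 2 * g) ∧ TSP.Sep E

end TAL
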