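import Pool.Agent.Lib.MP_021685_agTAL.AE
import Pool.Agent.Lib.MP_802513_agHT.W10
import Pool.Agent.Lib.MP_802513_agHT.W11

/-! One hundred per cent of the CM fields of a given degree. -/

set_option autoImplicit false

namespace TAL

open Polynomial

theorem count4 (g : ℕ) (hg : 3 ≤ g) :
    (∀ (E : Type) [Field E] [NumberField E], NumberField.IsCMField E → Module.finrank ℚ E = 2 * g →
      ∃ N : ℕ, 1 ≤ N ∧ ∃ t ∈ HT.Tot g N, HT.IsRootField t E) ∧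
    ∃ C c : ℝ, 0 < c ∧ ∀ N : ℕ, 1 ≤ N → (HT.Tot g N).Finite ∧ 0 < (HT.Tot g N).ncard ∧
      ∀ (δ : ℝ) (Y : Set ℤ[X]), 0 < δ → Y ⊆ HT.Tot g N → δ * ((HT.Tot g N).ncard : ℝ) ≤ (Y.ncard : ℝ) → ∀ r : ℕ,
        (({t : Fin r → ℤ[X] | (∀ i, t i ∈ Y) ∧ ¬ RootFields g t}).ncard : ℝ) ≤
          C * r * Real.exp (-c * Real.sqrt (Real.log N)) / δ * (Y.ncard : ℝ) ^ r :=
  ⟨fun E _ _ _ hd => HT.exists_root E hd, HT.generic_count3 g hg⟩

end TAL
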