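import Pool.Agent.Lib.MP_021685_agTAL.AF
import Pool.Agent.Lib.MP_021685_agTAL.AL6
import Pool.Agent.Lib.MP_021685_agTAL.AL10
import Pool.Agent.Lib.MP_021685_agSP.SPT

/-! The exact class of CM fields, and one hundred per cent of the fields. -/

set_option autoImplicit false

attribute [-instance] Pool.Agent.Lib.MP_802513_ag.W.fintypeEmb

namespace TAL

open Polynomial

theorem exact {r : ℕ} {g : Fin r → ℕ} {E : Fin r → Type} [∀ i, Field (E i)] [∀ i, NumberField (E i)]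
    (hE : ∀ i, NumberField.IsCMField (E i) ∧ Module.finrank ℚ (E i) = 2 * g i) :
    (TSP.Sep E ↔ TatePowers E) ∧ (TSP.Sep E ↔ TateFields g E) := by
  have hcm : ∀ i, NumberField.IsCMField (E i) := fun i => (hE i).1
  refine ⟨⟨fun h Q J _ a hQ hint hW hi => ?_, fun h => TSP.sep_of_some h⟩, TSP.sep_iff hE⟩
  obtain ⟨R, hR, hr⟩ := TSP.exists_poly_fam a hint
  exact ⟨R, hR, hr, TSP.evenFull_of_full (TSP.evenFull_of_tateFields (TSP.tateFields hE h) Q J a R hQ.pos hR hW hr hi)⟩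

theorem sep_of_generic {r g : ℕ} {E : Fin r → Type} [∀ i, Field (E i)] [∀ i, NumberField (E i)]
    (hE : ∀ i, IsGeneric (E i) ∧ Module.finrank ℚ (E i) = 2 * g) (hiso : ∀ i j, Nonempty (E i ≃+* E j) → i = j) :
    (∀ i, NumberField.IsCMField (E i) ∧ Module.finrank ℚ (E i) = 2 * g) ∧ TSP.Sep E := by
  refine ⟨fun i => ⟨(hE i).1.1, (hE i).2⟩, TSP.sep_of_signs (fun i => ⟨(hE i).1.1, (hE i).1.2.1⟩) fun i j hij => ?_⟩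
  exact ⟨⟨fun e => hij (hiso i j ⟨e⟩)⟩, Or.inr (Or.inl fun σ _ => (hE i).1.2.2 σ)⟩

theorem sepWeil_of_generic {q g r : ℕ} {t : Fin r → ℤ[X]} (h : GenericFields q g t) : SepWeil q g t := by
  intro E _ _ hE
  obtain ⟨h1, h2⟩ := h E hE
  exact sep_of_generic h1 h2

theorem sepRoot_of_generic {g r : ℕ} {t : Fin r → ℤ[X]} (h : RootFields g t) : SepRoot g t := by
  intro E _ _ hE
  obtain ⟨h1, h2⟩ := h E hE
  exact sep_of_generic h1 h2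

theorem ncard_le_of {r : ℕ} {Y : Set ℤ[X]} (hY : Y.Finite) {P P' : (Fin r → ℤ[X]) → Prop} (h : ∀ t, P' t → P t) {c : ℝ}
    (hc : (({t : Fin r → ℤ[X] | (∀ i, t i ∈ Y) ∧ ¬ P' t}).ncard : ℝ) ≤ c) :
    (({t : Fin r → ℤ[X] | (∀ i, t i ∈ Y) ∧ ¬ P t}).ncard : ℝ) ≤ c := by
  refine le_trans ?_ hc
  have hfin : {t : Fin r → ℤ[X] | (∀ i, t i ∈ Y) ∧ ¬ P' t}.Finite := by
    apply Set.Finite.subset (Set.Finite.pi' (fun _ : Fin r => hY))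
    rintro t ⟨hty, -⟩
    exact hty
  have hsub : {t : Fin r → ℤ[X] | (∀ i, t i ∈ Y) ∧ ¬ P t} ⊆ {t : Fin r → ℤ[X] | (∀ i, t i ∈ Y) ∧ ¬ P' t} :=
    fun t ht => ⟨ht.1, fun hp => ht.2 (h t hp)⟩
  exact_mod_cast Set.ncard_le_ncard hsub hfin

theorem weil_fixed (q : ℕ) (hq : 2 ≤ q) (p : ℕ) (hp : 2 ≤ p) : ∃ C : ℝ, ∃ g₀ : ℕ, ∀ g : ℕ, g₀ ≤ g →
    (TI.Weil q g).Finite ∧ 0 < (TI.Weil q g).ncard ∧
      (TI.Weil q g).ncard ≤ 3 * ({h | h ∈ TI.Weil q g ∧ ¬ (p : ℤ) ∣ h.coeff 0} : Set ℤ[X]).ncard ∧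
      ∀ (δ : ℝ) (Y : Set ℤ[X]), 0 < δ → Y ⊆ TI.Weil q g → δ * ((TI.Weil q g).ncard : ℝ) ≤ (Y.ncard : ℝ) → ∀ r : ℕ,
        (({t : Fin r → ℤ[X] | (∀ i, t i ∈ Y) ∧ ¬ (SepWeil q g t ∧ TateFrob q g t)}).ncard : ℝ) ≤
          C * r * Real.log g / (δ * g) * (Y.ncard : ℝ) ^ r := by
  obtain ⟨C, g₀, H⟩ := count q hq p hp
  refine ⟨C, g₀, fun g hg => ?_⟩
  obtain ⟨h1, h2, h3, h4⟩ := H g hg
  exact ⟨h1, h2, h3, fun δ Y hδ hY hδY r =>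
    ncard_le_of (h1.subset hY) (fun t ht => ⟨sepWeil_of_generic ht.1, ht.2⟩) (h4 δ Y hδ hY hδY r)⟩

theorem weil_degree (g : ℕ) (hg : 3 ≤ g) : ∃ C c : ℝ, 0 < c ∧ ∀ q : ℕ, IsPrimePow q →
    (TI.Weil q g).Finite ∧ 0 < (TI.Weil q g).ncard ∧
      ∀ (δ : ℝ) (Y : Set ℤ[X]), 0 < δ → Y ⊆ TI.Weil q g → δ * ((TI.Weil q g).ncard : ℝ) ≤ (Y.ncard : ℝ) → ∀ r : ℕ,
        (({t : Fin r → ℤ[X] | (∀ i, t i ∈ Y) ∧ ¬ (SepWeil q g t ∧ TateFrob q g t)}).ncard : ℝ) ≤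
          C * r * Real.exp (-c * Real.sqrt (Real.log q)) / δ * (Y.ncard : ℝ) ^ r := by
  obtain ⟨C, c, hc, H⟩ := count2 g hg
  refine ⟨C, c, hc, fun q hq => ?_⟩
  obtain ⟨h1, h2, h3⟩ := H q hq
  exact ⟨h1, h2, fun δ Y hδ hY hδY r =>
    ncard_le_of (h1.subset hY) (fun t ht => ⟨sepWeil_of_generic ht.1, ht.2⟩) (h3 δ Y hδ hY hδY r)⟩

theorem cm_degree (g : ℕ) (hg : 3 ≤ g) :
    (∀ (E : Type) [Field E] [NumberField E], NumberField.IsCMField E → Module.finrank ℚ E = 2 * g →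
      ∃ N : ℕ, 1 ≤ N ∧ ∃ t ∈ HT.Tot g N, HT.IsRootField t E) ∧
    ∃ C c : ℝ, 0 < c ∧ ∀ N : ℕ, 1 ≤ N → (HT.Tot g N).Finite ∧ 0 < (HT.Tot g N).ncard ∧
      ∀ (δ : ℝ) (Y : Set ℤ[X]), 0 < δ → Y ⊆ HT.Tot g N → δ * ((HT.Tot g N).ncard : ℝ) ≤ (Y.ncard : ℝ) → ∀ r : ℕ,
        (({t : Fin r → ℤ[X] | (∀ i, t i ∈ Y) ∧ ¬ SepRoot g t}).ncard : ℝ) ≤
          C * r * Real.exp (-c * Real.sqrt (Real.log N)) / δ * (Y.ncard : ℝ) ^ r := by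
  obtain ⟨h0, C, c, hc, H⟩ := count4 g hg
  refine ⟨fun E _ _ hE hd => h0 E hE hd, C, c, hc, fun N hN => ?_⟩
  obtain ⟨h1, h2, h3⟩ := H N hN
  exact ⟨h1, h2, fun δ Y hδ hY hδY r => ncard_le_of (h1.subset hY) (fun t ht => sepRoot_of_generic ht) (h3 δ Y hδ hY hδY r)⟩

end TAL
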