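import Pool.Agent.Lib.MP_021685_agTAF.F4

/-! The product of the Frobenius polynomials of different irreducible Weil polynomials is separable. -/

set_option autoImplicit false

namespace TAL

open Polynomial Module TAF

private theorem aeval_frob (q : ℕ) (h : ℤ[X]) (z : ℂ) : aeval z (TI.frobPoly q h) =
    ∑ i ∈ Finset.range (h.natDegree + 1), (h.coeff i : ℂ) * (z ^ 2 + (q : ℂ)) ^ i * z ^ (h.natDegree - i) := by
  unfold TI.frobPoly
  rw [map_sum]
  refine Finset.sum_congr rfl fun i _ => ?_
  simp [map_mul, map_pow, map_add]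

private theorem frob_key (q : ℕ) (h : ℤ[X]) (z x : ℂ) (hx : z * x = z ^ 2 + (q : ℂ)) :
    aeval z (TI.frobPoly q h) = z ^ h.natDegree * aeval x h := by
  rw [aeval_frob, aeval_eq_sum_range, Finset.mul_sum]
  refine Finset.sum_congr rfl fun i hi => ?_
  have hi' : i ≤ h.natDegree := by
    have := Finset.mem_range.1 hi
    omega
  rw [← hx, mul_pow, zsmul_eq_mul]
  calc (h.coeff i : ℂ) * (z ^ i * x ^ i) * z ^ (h.natDegree - i)
      = (h.coeff i : ℂ) * x ^ i * (z ^ (h.natDegree - i) * z ^ i) := by ring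
    _ = (h.coeff i : ℂ) * x ^ i * z ^ h.natDegree := by rw [← pow_add, Nat.sub_add_cancel hi']
    _ = z ^ h.natDegree * ((h.coeff i : ℂ) * x ^ i) := by ring

theorem frob_inj {q : ℕ} (hq : 0 < q) {h h' : ℤ[X]} (hm : h.Monic) (hm' : h'.Monic)
    (he : TI.frobPoly q h = TI.frobPoly q h') : h = h' := by
  have hq' : (q : ℂ) ≠ 0 := Nat.cast_ne_zero.2 hq.ne'
  have hd : h.natDegree = h'.natDegree := by
    have h1 := (frob_monic q h hm).2
    have h2 := (frob_monic q h' hm').2
    rw [he, h2] at h1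
    omega
  have hx : ∀ x : ℂ, aeval x h = aeval x h' := by
    intro x
    have hdeg : ((X ^ 2 - C x * X + C (q : ℂ) : ℂ[X])).degree ≠ 0 := by
      have h3 : (X ^ 2 - C x * X + C (q : ℂ) : ℂ[X]).natDegree = 2 := by
        compute_degree!
      intro h4
      rw [natDegree_eq_of_degree_eq_some h4] at h3
      exact absurd h3 (by norm_num)
    obtain ⟨z, hz⟩ := IsAlgClosed.exists_root _ hdeg
    have hz1 : z ^ 2 - x * z + (q : ℂ) = 0 := by
      simpa [IsRoot.def] using hz
    have hz0 : z ≠ 0 := by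
      rintro rfl
      apply hq'
      linear_combination hz1
    have hzx : z * x = z ^ 2 + (q : ℂ) := by linear_combination -hz1
    have h5 := frob_key q h z x hzx
    have h6 := frob_key q h' z x hzx
    rw [he, h6, hd] at h5
    exact (mul_left_cancel₀ (pow_ne_zero _ hz0) h5).symm
  apply Polynomial.map_injective (Int.castRingHom ℂ) (Int.castRingHom ℂ).injective_int
  refine Polynomial.funext fun x => ?_
  rw [eval_map, eval_map]
  exact hx x

theorem irr_of_field {q g : ℕ} {t : ℤ[X]} (ht : t ∈ TI.Weil q g) {F : Type} [Field F] [NumberField F] {a : F}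
    (ha : aeval a (TI.frobPoly q t) = 0) (htop : IntermediateField.adjoin ℚ {a} = ⊤) (hfr : finrank ℚ F = 2 * g) :
    Irreducible ((TI.frobPoly q t).map (Int.castRingHom ℚ)) := by
  obtain ⟨hmon, hnd⟩ := frob_monic q t ht.1
  rw [ht.2.1] at hnd
  have hint : IsIntegral ℚ a := Algebra.IsIntegral.isIntegral a
  have hmin : (minpoly ℚ a).natDegree = 2 * g := by
    rw [← hfr, ← IntermediateField.adjoin.finrank hint, htop, IntermediateField.finrank_top']
  have ha' : aeval a ((TI.frobPoly q t).map (Int.castRingHom ℚ)) = 0 := by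
    rw [← ha]
    exact aeval_map_algebraMap ℚ a (TI.frobPoly q t)
  have hdvd := minpoly.dvd ℚ a ha'
  have heq : (TI.frobPoly q t).map (Int.castRingHom ℚ) = minpoly ℚ a := by
    refine eq_of_monic_of_dvd_of_natDegree_le (minpoly.monic hint) (hmon.map _) hdvd ?_
    rw [hmon.natDegree_map, hnd, hmin]
  rw [heq]
  exact minpoly.irreducible hint

theorem sep_frob {r : ℕ} {Q : ℕ} (hQ : 0 < Q) {g : Fin r → ℕ} {t : Fin r → ℤ[X]} (ht : ∀ i, t i ∈ TI.Weil Q (g i))
    (hirr : ∀ i, Irreducible ((TI.frobPoly Q (t i)).map (Int.castRingHom ℚ)))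
    (hinj : ∀ i j, i ≠ j → t i ≠ t j) : ((∏ i, TI.frobPoly Q (t i)).map (Int.castRingHom ℚ)).Separable := by
  rw [Polynomial.map_prod]
  refine separable_prod (fun i j hij => ?_) fun i => (hirr i).separable
  show IsCoprime ((TI.frobPoly Q (t i)).map (Int.castRingHom ℚ)) ((TI.frobPoly Q (t j)).map (Int.castRingHom ℚ))
  refine ((hirr i).coprime_iff_not_dvd).2 fun hdvd => hinj i j hij ?_
  refine frob_inj hQ (ht i).1 (ht j).1 ?_
  apply Polynomial.map_injective (Int.castRingHom ℚ) (Int.castRingHom ℚ).injective_int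
  have hass := (hirr i).associated_of_dvd (hirr j) hdvd
  exact eq_of_monic_of_associated ((frob_monic Q (t i) (ht i).1).1.map _) ((frob_monic Q (t j) (ht j).1).1.map _) hass

end TAL
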