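import Pool.Agent.Lib.MP_021685_agTAL.AL4

/-! The Frobenius polynomials themselves. -/

set_option autoImplicit false

attribute [-instance] Pool.Agent.Lib.MP_802513_ag.W.fintypeEmb

namespace TAL

open Polynomial TAF

theorem tateOver_mono {Q : ℕ} {R : ℤ[X]} {S S' : ℂ → Prop} (h : ∀ y, S' y → S y) (hT : TateOver Q R S) :
    TateOver Q R S' :=
  ⟨tateLit_mono h hT.1, fun V W _ _ _ _ _ _ F G hs hc hG => hT.2 V W F G hs hc fun y hy => h y (hG y hy)⟩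

theorem exists_root_weil {q g : ℕ} {t : ℤ[X]} (ht : t ∈ TI.Weil q g) (hg : 0 < g) : ∃ z : ℂ, z ∈ Roots q t := by
  obtain ⟨hmon, hnd⟩ := frob_monic q t ht.1
  rw [ht.2.1] at hnd
  have h1 : ((TI.frobPoly q t).map (Int.castRingHom ℂ)).degree ≠ 0 := by
    intro h2
    have h3 := natDegree_eq_of_degree_eq_some h2
    rw [hmon.natDegree_map, hnd] at h3
    have h4 : 2 * g = 0 := by exact_mod_cast h3
    omega
  obtain ⟨z, hz⟩ := IsAlgClosed.exists_root _ h1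
  refine ⟨z, ?_⟩
  show aeval z (TI.frobPoly q t) = 0
  rw [IsRoot.def, eval_map] at hz
  exact hz

theorem tateFrob {q g r : ℕ} (hq : 0 < q) (hg : 2 ≤ g) {t : Fin r → ℤ[X]} (ht : ∀ i, t i ∈ TI.Weil q g)
    (hG : GenericFields q g t) : TateFrob q g t := by
  have hex : ∀ s : {h : ℤ[X] // h ∈ TI.Weil q g}, ∃ (F : Type) (_ : Field F) (_ : NumberField F) (a : F),
      aeval a (TI.frobPoly q s.1) = 0 ∧ IntermediateField.adjoin ℚ {a} = ⊤ := by
    intro s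
    obtain ⟨z, hz⟩ := exists_root_weil s.2 (by omega)
    obtain ⟨F, h1, h2, φ, a, ha, htop, -⟩ := exists_field_of_root s.2.1 hz
    exact ⟨F, h1, h2, a, ha, htop⟩
  choose E hF hN a ha htop using hex
  let s : Fin r → {h : ℤ[X] // h ∈ TI.Weil q g} := fun i => ⟨t i, ht i⟩
  obtain ⟨hE, hiso⟩ := hG (fun i => E (s i)) fun i => ⟨a (s i), ha (s i), htop (s i)⟩
  have hdup : ∀ x y : {h : ℤ[X] // h ∈ TI.Weil q g}, x = y → Nonempty (E x ≃+* E y) := by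
    rintro x _ rfl
    exact ⟨RingEquiv.refl _⟩
  have hinj : ∀ i j, i ≠ j → t i ≠ t j := fun i j hij h => hij (hiso i j (hdup _ _ (Subtype.ext h)))
  have hsep : ((∏ i, TI.frobPoly q (t i)).map (Int.castRingHom ℚ)).Separable :=
    sep_frob (g := fun _ => g) hq ht (fun i => irr_of_field (ht i) (ha (s i)) (htop (s i)) (hE i).2) hinj
  have hroots : ∀ (i : Fin r) (z : ℂ), z ∈ Roots q (t i) ↔ ∃ φ : E (s i) →+* ℂ, φ (a (s i)) = z := by
    intro i z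
    refine ⟨fun hz => exists_root (ht i) (hE i).2 (ha (s i)) (htop (s i)) hz, ?_⟩
    rintro ⟨φ, rfl⟩
    exact root_of_emb (ha (s i)) φ
  have hW : ∀ (i : Fin r) (φ : E (s i) →+* ℂ), φ (a (s i)) * starRingEnd ℂ (φ (a (s i))) = (q : ℂ) := fun i φ =>
    weil_abs hq (ht i) ((hroots i _).2 ⟨φ, rfl⟩)
  have hA : Apart fun i => E (s i) := fun i j hij =>
    ⟨⟨fun e => hij (hiso i j ⟨e⟩)⟩, Or.inr (Or.inl fun σ _ => (hE i).1.2.2 σ)⟩
  have hmain := tateFields (g := fun _ => g) (fun i => ⟨(hE i).1.1, (hE i).1.2.1, (hE i).2⟩) hA q (fun _ => Unit) (fun i _ => a (s i)) (∏ i, TI.frobPoly q (t i)) hq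
    (monic_prod_of_monic _ _ fun i _ => (frob_monic q (t i) (ht i).1).1) (fun i _ φ => hW i φ) (fun z => by
      rw [map_prod, Finset.prod_eq_zero_iff]
      constructor
      · rintro ⟨i, -, hi⟩
        obtain ⟨φ, hφ⟩ := (hroots i z).1 hi
        exact ⟨i, (), φ, hφ⟩
      · rintro ⟨i, -, φ, hφ⟩
        exact ⟨i, Finset.mem_univ _, (hroots i z).2 ⟨φ, hφ⟩⟩)
  refine ⟨hsep, tateOver_mono (fun y hy i _ => ?_) (hmain.1 fun i => indep_single (hE i).1.2.1 hq hg (hE i).2 (htop (s i)) (hW i))⟩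
  obtain ⟨N, hN, hyN⟩ := hy i
  refine ⟨N, hN, Submonoid.closure_mono ?_ hyN⟩
  rintro ρ ⟨f, hf0, hf, h1 | h1 | h1⟩
  · exact ⟨f, hf0, hf, Or.inl h1⟩
  · exact ⟨f, hf0, hf, Or.inr (Or.inl h1)⟩
  · refine ⟨f, hf0, hf, Or.inr (Or.inr fun z hz hzL => ?_)⟩
    obtain ⟨φ, c, rfl, hc⟩ := hz
    exact h1 _ ((hroots i _).2 ⟨φ, rfl⟩) (mem_of_adjoin _ φ hc hzL (a (s i)))

end TAL
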