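import Mathlib

/-! The rational `l`-adic Tate module of an abelian group. -/

set_option autoImplicit false

namespace TAL

/-- The `l`-adic Tate module `T_l(M)` of the abelian group `M`: the sequences `x` of members of `M` with `x 0 = 0` and
`l x (n + 1) = x n`. -/
def TateSeq (l : ℕ) (M : Type) [AddCommGroup M] : Set (ℕ → M) := {x | x 0 = 0 ∧ ∀ n, l • x (n + 1) = x n}

/-- The vector space `V` over `ℚ_l`, with the map `ι` from `T_l(M)` to `V`, is the rational Tate module
`V_l(M) = T_l(M) ⊗ ℚ` of the abelian group `M` (in any of its constructions): `ι` is an injective homomorphism, linear over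
`ℤ_l` (the product of `x` with an `l`-adic integer `a` is the sequence of the `a_n x n`, where `a_n` is an integer congruent to
`a` modulo `l ^ n`), and every vector of `V` has a multiple by a power of `l` in its image.  (The values of `ι` outside of
`T_l(M)` do not matter.) -/
structure IsTateMod (l : ℕ) [Fact l.Prime] (M : Type) [AddCommGroup M] (V : Type) [AddCommGroup V] [Module ℚ_[l] V]
    (ι : (ℕ → M) → V) : Prop where
  add : ∀ x ∈ TateSeq l M, ∀ y ∈ TateSeq l M, ι (x + y) = ι x + ι y
  smul : ∀ a : ℤ_[l], ∀ x ∈ TateSeq l M, ι (fun n => a.appr n • x n) = (a : ℚ_[l]) • ι x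
  inj : ∀ x ∈ TateSeq l M, ι x = 0 → x = 0
  surj : ∀ v : V, ∃ k : ℕ, ∃ x ∈ TateSeq l M, (l : ℚ_[l]) ^ k • v = ι x

end TAL
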