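import Pool.Agent.Lib.MP_021685_agTAL.AT
import Pool.Agent.Lib.MP_021685_agTT.TNB

/-! Existence of the rational Tate module with its Frobenius operator (`IsFrobMod`). -/

set_option autoImplicit false

namespace TAL

open Pool.Agent.Lib.MP_021685_agTT Pool.Agent.Lib.MP_17a322_nt.VA

/-- Every abelian variety over a finite field has a rational Tate module with a Frobenius operator, of finite dimension. -/
theorem exists_frobMod {K : Type} [Field K] [Fintype K] {N : ℕ} (A : AV K N) (l : ℕ) [Fact l.Prime] :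
    ∃ (V : Type) (_ : AddCommGroup V) (_ : Module ℚ_[l] V) (_ : Module.Finite ℚ_[l] V)
      (ι : (ℕ → A.Pts (AlgebraicClosure K)) → V) (F : V →ₗ[ℚ_[l]] V), IsFrobMod A l ι F := by
  obtain ⟨ι, h⟩ := Vl.isTateMod l (A.Pts (AlgebraicClosure K))
  obtain ⟨e, he⟩ := h.equiv
  refine ⟨VlA A l, inferInstance, inferInstance, inferInstance, ι,
    (e.toLinearMap.comp (frobV A l)).comp e.symm.toLinearMap, isTateMod_iff.2 h, fun x hx => ?_⟩
  have h1 := he ⟨x, hx⟩
  have h2 := he (Tl.map (frob A) ⟨x, hx⟩)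
  show e (frobV A l (e.symm (ι x))) = _
  have h3 : e.symm (ι x) = (1 : ℚ_[l]) ⊗ₜ[ℤ_[l]] (⟨x, hx⟩ : Tl l (A.Pts (AlgebraicClosure K))) := by
    rw [LinearEquiv.symm_apply_eq]
    exact h1.symm
  rw [h3]
  exact h2

end TAL
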